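import Pool.Agent.Results.MP_302605_an.OptimalAnisotropy

/-!
# Anisotropic Cheeger constants of the disk: regular polygons

A lower bound for `J_B[K]` if `K` lies between two disks, the regular polygons circumscribed about
the unit disk.
-/

set_option autoImplicit false

open MeasureTheory Set Topology Filter
open scoped ENNReal Pointwise

noncomputable section

namespace Pool.Agent.U798.CH

open Pool.Agent.Results.MP_302605_an.OptimalAnisotropy

/-- the open unit disk -/
def B : Set (En 2) := Metric.ball 0 1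

/-- the regular `n`-gon circumscribed about the unit disk: the intersection of the half planes
`{x | x · u < 1}`, `u` a point of the unit circle with angle `2 π k / n` -/
def Reg (n : ℕ) : Set (En 2) :=
  {x | ∀ k : ℤ, x 0 * Real.cos (2 * Real.pi * k / n) + x 1 * Real.sin (2 * Real.pi * k / n) < 1}

/-- `K ∈ 𝒫_n`: a centrally symmetric, open, bounded, convex set, the interior of a polygon with
exactly `n` vertices -/
structure Poly (n : ℕ) (K : Set (En 2)) : Prop where
  anis : Anisotropy K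
  vert : ∃ V : Finset (En 2), V.card = n ∧ K = interior (convexHull ℝ (V : Set (En 2))) ∧
    ∀ v ∈ V, v ∉ convexHull ℝ ((V : Set (En 2)) \ {v})

/-- a field with divergence `2 / (1 + δ)` on the disk -/
lemma cheeger_ge' {K : Set (En 2)} (hK : B ⊆ K) {δ : ℝ} (hδ : 0 < δ) :
    ENNReal.ofReal (2 / (1 + δ)) ≤ cheeger K B := by
  refine le_iInf fun E => le_iInf fun h1 => le_iInf fun h2 => le_iInf fun h3 => ?_
  have hE : volume E ≠ ⊤ := ((measure_mono h2).trans_lt measure_ball_lt_top).ne
  rw [ENNReal.le_div_iff_mul_le (Or.inl h3.ne') (Or.inl hE)]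
  let χ : ContDiffBump (0 : En 2) := ⟨1, 1 + δ, one_pos, by linarith⟩
  let φ : En 2 → En 2 := fun x => (χ x * (1 + δ)⁻¹) • x
  have hφ : ContDiff ℝ 1 φ := by
    refine ContDiff.smul (ContDiff.mul χ.contDiff contDiff_const) contDiff_id
  have hφ2 : HasCompactSupport φ := by
    refine χ.hasCompactSupport.mono ?_
    intro x hx hx'
    apply hx
    show (χ x * _) • x = 0
    rw [hx', zero_mul, zero_smul]
  have hφ3 : ∀ x, φ x ∈ K := by
    intro x
    apply hK
    show φ x ∈ Metric.ball 0 1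
    rw [mem_ball_zero_iff]
    show ‖(χ x * (1 + δ)⁻¹) • x‖ < 1
    by_cases hx : x ∈ Metric.ball (0 : En 2) (1 + δ)
    · rw [mem_ball_zero_iff] at hx
      rw [norm_smul, Real.norm_eq_abs, abs_mul, abs_of_nonneg χ.nonneg, abs_inv,
        abs_of_pos (by positivity : 0 < 1 + δ)]
      calc χ x * (1 + δ)⁻¹ * ‖x‖ ≤ 1 * (1 + δ)⁻¹ * ‖x‖ := by
            gcongr
            exact χ.le_one
        _ < 1 := by
            rw [one_mul, inv_mul_lt_iff₀ (by positivity), mul_one]
            exact hx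
    · have : χ x = 0 := by
        rw [← Function.notMem_support, χ.support_eq]
        exact hx
      rw [this, zero_mul, zero_smul, norm_zero]
      exact zero_lt_one
  have hdiv : ∀ x ∈ E, div φ x = 2 / (1 + δ) := by
    intro x hx
    have hx' : x ∈ Metric.ball (0 : En 2) 1 := h2 hx
    have h4 : φ =ᶠ[𝓝 x] fun x => (1 + δ)⁻¹ • x := by
      filter_upwards [Metric.isOpen_ball.mem_nhds hx'] with z hz
      show (χ z * _) • z = _
      rw [χ.one_of_mem_closedBall (Metric.ball_subset_closedBall hz), one_mul]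
    have h5 : fderiv ℝ (fun x : En 2 => (1 + δ)⁻¹ • x) x =
        (1 + δ)⁻¹ • ContinuousLinearMap.id ℝ (En 2) := by
      rw [fderiv_fun_const_smul differentiableAt_fun_id, fderiv_fun_id]
    rw [div, h4.fderiv_eq, h5, Fin.sum_univ_two]
    simp
    ring
  have hint : ∫ x in E, div φ x = (volume E).toReal * (2 / (1 + δ)) := by
    rw [setIntegral_congr_fun h1 hdiv, setIntegral_const, smul_eq_mul]
    rfl
  calc ENNReal.ofReal (2 / (1 + δ)) * volume E
      = ENNReal.ofReal (∫ x in E, div φ x) := by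
        rw [hint, ENNReal.ofReal_mul ENNReal.toReal_nonneg, ENNReal.ofReal_toReal hE, mul_comm]
    _ ≤ perimeter K E := le_iSup_of_le φ (le_iSup_of_le hφ (le_iSup_of_le hφ2
        (le_iSup_of_le hφ3 le_rfl)))

lemma cheeger_ge_two {K : Set (En 2)} (hK : B ⊆ K) : 2 ≤ cheeger K B := by
  have h1 : Tendsto (fun δ : ℝ => ENNReal.ofReal (2 / (1 + δ))) (𝓝[>] 0) (𝓝 2) := by
    have h2 : Tendsto (fun δ : ℝ => 2 / (1 + δ)) (𝓝[>] 0) (𝓝 (2 / (1 + 0))) := by
      apply Tendsto.mono_left _ nhdsWithin_le_nhds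
      apply ContinuousAt.tendsto
      fun_prop (disch := norm_num)
    have h3 := ENNReal.tendsto_ofReal h2
    simpa using h3
  refine le_of_tendsto h1 ?_
  filter_upwards [self_mem_nhdsWithin] with δ hδ
  exact cheeger_ge' hK hδ

lemma volume_polar_ge {K : Set (En 2)} {c : ℝ} (hc : 0 < c) (hK : ∀ x ∈ K, ‖x‖ * c < 1) :
    ENNReal.ofReal (Real.pi * c ^ 2) ≤ volume (polar K) := by
  have h1 : Metric.ball (0 : En 2) c ⊆ polar K := by
    intro x hx y hy
    rw [mem_ball_zero_iff] at hx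
    have h2 := real_inner_le_norm x y
    have h3 := hK y hy
    have h4 : ‖x‖ * ‖y‖ ≤ c * ‖y‖ := by gcongr
    linarith
  refine le_trans ?_ (measure_mono h1)
  rw [EuclideanSpace.volume_ball_fin_two, mul_comm, ENNReal.ofReal_mul (by positivity),
    ENNReal.ofReal_pow hc.le, mul_comm]

/-- a lower bound for `J_B[K]` -/
lemma J_ge {K : Set (En 2)} {c : ℝ} (hc : 0 < c) (hK : B ⊆ K) (hK2 : ∀ x ∈ K, ‖x‖ * c < 1) :
    ENNReal.ofReal (2 * (Real.sqrt Real.pi * c)) ≤ J B K := by
  unfold J
  rw [ENNReal.ofReal_mul (by norm_num)]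
  refine mul_le_mul' ?_ ?_
  · simpa using cheeger_ge_two hK
  · have h := ENNReal.rpow_le_rpow (volume_polar_ge hc hK2) (z := 1 / ((2 : ℕ) : ℝ)) (by positivity)
    refine le_trans (le_of_eq ?_) h
    rw [ENNReal.ofReal_rpow_of_nonneg (by positivity) (by positivity)]
    congr 1
    rw [← Real.sqrt_mul_self (show 0 ≤ Real.sqrt Real.pi * c by positivity)]
    rw [Real.sqrt_eq_rpow (Real.sqrt Real.pi * c * (Real.sqrt Real.pi * c))]
    have e : Real.sqrt Real.pi * c * (Real.sqrt Real.pi * c) = Real.pi * c ^ 2 := by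
      have := Real.mul_self_sqrt Real.pi_pos.le
      linear_combination c ^ 2 * this
    rw [e]
    norm_num

lemma norm_sq (x : En 2) : ‖x‖ ^ 2 = x 0 ^ 2 + x 1 ^ 2 := by
  rw [EuclideanSpace.norm_eq, Real.sq_sqrt (by positivity), Fin.sum_univ_two]
  simp only [Real.norm_eq_abs, sq_abs]

lemma B_sub_Reg (n : ℕ) : B ⊆ Reg n := by
  intro x hx k
  have hx' : ‖x‖ < 1 := by
    have : x ∈ Metric.ball (0 : En 2) 1 := hx
    rwa [mem_ball_zero_iff] at this
  have h1 := norm_sq x
  have h2 : ‖x‖ ^ 2 < 1 := by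
    have := norm_nonneg x
    nlinarith
  have h3 := Real.sin_sq_add_cos_sq (2 * Real.pi * k / n)
  nlinarith [sq_nonneg (x 0 - Real.cos (2 * Real.pi * k / n)),
    sq_nonneg (x 1 - Real.sin (2 * Real.pi * k / n))]

/-- the regular polygon lies in a disk -/
lemma Reg_sub {n : ℕ} (hn : 3 ≤ n) : ∀ x ∈ Reg n, ‖x‖ * Real.cos (Real.pi / n) < 1 := by
  intro x hx
  set z : ℂ := ⟨x 0, x 1⟩ with hz
  have hzn : ‖z‖ = ‖x‖ := by
    have h1 : ‖z‖ ^ 2 = ‖x‖ ^ 2 := by
      rw [norm_sq, Complex.sq_norm, Complex.normSq_apply]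
      simp only [hz]
      ring
    exact (pow_left_inj₀ (norm_nonneg _) (norm_nonneg _) two_ne_zero).1 h1
  have hre : x 0 = ‖x‖ * Real.cos z.arg := by
    rw [← hzn, Complex.norm_mul_cos_arg]
  have him : x 1 = ‖x‖ * Real.sin z.arg := by
    rw [← hzn, Complex.norm_mul_sin_arg]
  have hn0 : (0 : ℝ) < n := by
    have : 0 < n := by omega
    exact_mod_cast this
  have hn3 : (3 : ℝ) ≤ n := by exact_mod_cast hn
  set k : ℤ := round (z.arg * n / (2 * Real.pi)) with hk
  have h1 := hx k
  have h2 : x 0 * Real.cos (2 * Real.pi * k / n) + x 1 * Real.sin (2 * Real.pi * k / n) =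
      ‖x‖ * Real.cos (z.arg - 2 * Real.pi * k / n) := by
    rw [Real.cos_sub]
    conv_lhs => rw [hre, him]
    ring
  rw [h2] at h1
  have h3 : |z.arg - 2 * Real.pi * k / n| ≤ Real.pi / n := by
    have h4 := abs_sub_round (z.arg * n / (2 * Real.pi))
    rw [← hk] at h4
    have h5 : z.arg - 2 * Real.pi * k / n = (2 * Real.pi / n) * (z.arg * n / (2 * Real.pi) - k) := by
      field_simp
    rw [h5, abs_mul, abs_of_pos (by positivity : 0 < 2 * Real.pi / n)]
    calc 2 * Real.pi / n * |z.arg * n / (2 * Real.pi) - k| ≤ 2 * Real.pi / n * (1 / 2) := by gcongr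
      _ = Real.pi / n := by ring
  have h6 : Real.cos (Real.pi / n) ≤ Real.cos (z.arg - 2 * Real.pi * k / n) := by
    rw [← Real.cos_abs (z.arg - 2 * Real.pi * k / n)]
    apply Real.cos_le_cos_of_nonneg_of_le_pi (abs_nonneg _) _ h3
    rw [div_le_iff₀ hn0]
    nlinarith [Real.pi_pos]
  have h7 := norm_nonneg x
  nlinarith

/-- the value of a regular polygon with many sides -/
lemma J_Reg_ge {n : ℕ} (hn : 3 ≤ n) :
    ENNReal.ofReal (2 * (Real.sqrt Real.pi * Real.cos (Real.pi / n))) ≤ J B (Reg n) := by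
  apply J_ge _ (B_sub_Reg n) (Reg_sub hn)
  apply Real.cos_pos_of_mem_Ioo
  have hn3 : (3 : ℝ) ≤ n := by exact_mod_cast hn
  have hp := Real.pi_pos
  constructor
  · have : 0 < Real.pi / n := by positivity
    linarith
  · rw [div_lt_div_iff₀ (by positivity) (by norm_num)]
    nlinarith

end Pool.Agent.U798.CH
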