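import Pool.Agent.U798.CH.A

/-!
# The square: a test set
-/

set_option autoImplicit false

open MeasureTheory Set Topology Filter
open scoped ENNReal Pointwise

noncomputable section

namespace Pool.Agent.U798.CH

open Pool.Agent.Results.MP_302605_an.OptimalAnisotropy

/-- the square `(-1, 1)²` -/
def Sq : Set (En 2) := {x | |x 0| < 1 ∧ |x 1| < 1}

/-- coordinates -/
def cc (p : ℝ × ℝ) : En 2 := !₂[p.1, p.2]

lemma cc0 (p : ℝ × ℝ) : cc p 0 = p.1 := rfl
lemma cc1 (p : ℝ × ℝ) : cc p 1 = p.2 := rfl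

lemma mp_cc : MeasurePreserving cc (volume : Measure (ℝ × ℝ)) (volume : Measure (En 2)) := by
  have h1 := (volume_preserving_finTwoArrow ℝ).symm
  have h2 := (PiLp.volume_preserving_toLp (Fin 2)).comp h1
  have h3 : cc = (@WithLp.toLp 2 (Fin 2 → ℝ)) ∘ MeasurableEquiv.finTwoArrow.symm := by
    funext p
    ext i
    fin_cases i <;> rfl
  rw [h3]
  exact h2

lemma cont_cc : Continuous cc := by
  unfold cc
  fun_prop

/-- the test set in coordinates -/
def E0 : Set (ℝ × ℝ) := {p | p.1 ^ 2 + p.2 ^ 2 < 1 ∧ |p.1| < 9 / 10 ∧ |p.2| < 9 / 10}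

/-- the test set -/
def E1 : Set (En 2) := {x | x 0 ^ 2 + x 1 ^ 2 < 1 ∧ |x 0| < 9 / 10 ∧ |x 1| < 9 / 10}

lemma open_E0 : IsOpen E0 :=
  (isOpen_lt (by fun_prop) (by fun_prop)).and
    ((isOpen_lt (by fun_prop) (by fun_prop)).and (isOpen_lt (by fun_prop) (by fun_prop)))

lemma open_E1 : IsOpen E1 :=
  (isOpen_lt (by fun_prop) (by fun_prop)).and
    ((isOpen_lt (by fun_prop) (by fun_prop)).and (isOpen_lt (by fun_prop) (by fun_prop)))

lemma mem_B {x : En 2} : x ∈ B ↔ x 0 ^ 2 + x 1 ^ 2 < 1 := by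
  show x ∈ Metric.ball (0 : En 2) 1 ↔ _
  rw [mem_ball_zero_iff, ← norm_sq x]
  constructor
  · intro h
    nlinarith [norm_nonneg x]
  · intro h
    nlinarith [norm_nonneg x]

lemma E1_sub : E1 ⊆ B := fun _ hx => mem_B.2 hx.1

/-- the cap -/
def cap : Set (ℝ × ℝ) := {p | 9 / 10 ≤ p.1 ∧ p.1 ≤ 1 ∧ |p.2| < (25 - 24 * p.1) / 7}

lemma vol_cap : volume cap ≤ ENNReal.ofReal (11 / 175) := by
  have h1 : cap ⊆ regionBetween (fun x : ℝ => -((25 - 24 * x) / 7))
      (fun x : ℝ => (25 - 24 * x) / 7) (Icc (9 / 10 : ℝ) 1) := by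
    intro p hp
    exact ⟨⟨hp.1, hp.2.1⟩, abs_lt.1 hp.2.2⟩
  refine (measure_mono h1).trans ?_
  have h2 := volume_regionBetween_eq_integral (μ := (volume : Measure ℝ))
    (f := fun x : ℝ => -((25 - 24 * x) / 7)) (g := fun x : ℝ => (25 - 24 * x) / 7)
    (s := Icc (9 / 10 : ℝ) 1) (Continuous.integrableOn_Icc (by fun_prop))
    (Continuous.integrableOn_Icc (by fun_prop)) measurableSet_Icc (by
      intro x hx
      have := hx.2
      show -((25 - 24 * x) / 7) ≤ (25 - 24 * x) / 7
      linarith)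
  have e : (volume : Measure (ℝ × ℝ)) = (volume : Measure ℝ).prod volume := rfl
  rw [e, h2]
  apply ENNReal.ofReal_le_ofReal
  rw [integral_Icc_eq_integral_Ioc, ← intervalIntegral.integral_of_le (by norm_num)]
  have h3 : ∫ x in (9 / 10 : ℝ)..1, ((fun x : ℝ => (25 - 24 * x) / 7) -
      fun x : ℝ => -((25 - 24 * x) / 7)) x = 11 / 175 := by
    have h4 : ∀ x ∈ uIcc (9 / 10 : ℝ) 1, HasDerivAt (fun x : ℝ => (50 * x - 24 * x ^ 2) / 7)
        (((fun x : ℝ => (25 - 24 * x) / 7) - fun x : ℝ => -((25 - 24 * x) / 7)) x) x := by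
      intro x _
      have h5 : HasDerivAt (fun x : ℝ => (50 * x - 24 * x ^ 2) / 7)
          ((50 * 1 - 24 * (2 * x ^ 1 * 1)) / 7) x := by
        simpa using ((((hasDerivAt_id x).const_mul 50).sub (((hasDerivAt_id x).pow 2).const_mul
          24)).div_const 7)
      convert h5 using 1
      simp only [Pi.sub_apply]
      ring
    rw [intervalIntegral.integral_eq_sub_of_hasDerivAt h4 (Continuous.intervalIntegrable (by
      show Continuous (fun x : ℝ => (25 - 24 * x) / 7 - -((25 - 24 * x) / 7))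
      fun_prop) _ _)]
    norm_num
  exact h3.le

lemma mp_neg1 : MeasurePreserving (fun p : ℝ × ℝ => (-p.1, p.2)) volume volume :=
  (Measure.measurePreserving_neg (volume : Measure ℝ)).prod (MeasurePreserving.id volume)

lemma mp_swap : MeasurePreserving (Prod.swap : ℝ × ℝ → ℝ × ℝ) volume volume :=
  Measure.measurePreserving_swap

lemma meas_cap : MeasurableSet cap := by
  unfold cap
  measurability

/-- the open unit disk in coordinates -/
def B0 : Set (ℝ × ℝ) := {p | p.1 ^ 2 + p.2 ^ 2 < 1}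

lemma vol_B0 : volume B0 = ENNReal.ofReal Real.pi := by
  have h1 : cc ⁻¹' B = B0 := by
    ext p
    rw [mem_preimage, mem_B]
    rfl
  rw [← h1, mp_cc.measure_preimage (show MeasurableSet B from measurableSet_ball).nullMeasurableSet]
  show volume (Metric.ball (0 : En 2) 1) = _
  rw [EuclideanSpace.volume_ball_fin_two]
  simp

lemma B0_sub : B0 ⊆ E0 ∪ (cap ∪ ((fun p : ℝ × ℝ => (-p.1, p.2)) ⁻¹' cap ∪
    (Prod.swap ⁻¹' cap ∪ Prod.swap ⁻¹' ((fun p : ℝ × ℝ => (-p.1, p.2)) ⁻¹' cap)))) := by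
  have key : ∀ x y : ℝ, x ^ 2 + y ^ 2 < 1 → 9 / 10 ≤ x → (x, y) ∈ cap := by
    intro x y h1 h2
    have h3 : x < 1 := by nlinarith [sq_nonneg y]
    refine ⟨h2, h3.le, ?_⟩
    show |y| < (25 - 24 * x) / 7
    apply abs_lt_of_sq_lt_sq _ (by linarith)
    nlinarith [sq_nonneg (25 * x - 24)]
  rintro ⟨x, y⟩ h
  have h' : x ^ 2 + y ^ 2 < 1 := h
  by_cases h1 : 9 / 10 ≤ x
  · exact Or.inr (Or.inl (key x y h' h1))
  by_cases h2 : 9 / 10 ≤ -x
  · exact Or.inr (Or.inr (Or.inl (key (-x) y (by linarith [neg_sq x]) h2)))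
  by_cases h3 : 9 / 10 ≤ y
  · exact Or.inr (Or.inr (Or.inr (Or.inl (key y x (by linarith) h3))))
  by_cases h4 : 9 / 10 ≤ -y
  · exact Or.inr (Or.inr (Or.inr (Or.inr (key (-y) x (by linarith [neg_sq y]) h4))))
  left
  push Not at h1 h2 h3 h4
  refine ⟨h', ?_, ?_⟩
  · show |x| < 9 / 10
    rw [abs_lt]
    constructor <;> linarith
  · show |y| < 9 / 10
    rw [abs_lt]
    constructor <;> linarith

lemma vol_E0 : ENNReal.ofReal (Real.pi - 44 / 175) ≤ volume E0 := by
  have h1 : volume B0 ≤ volume E0 + (volume cap + (volume cap + (volume cap + volume cap))) := by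
    refine (measure_mono B0_sub).trans ?_
    refine (measure_union_le _ _).trans (add_le_add le_rfl ?_)
    refine (measure_union_le _ _).trans (add_le_add le_rfl ?_)
    refine (measure_union_le _ _).trans (add_le_add ?_ ?_)
    · rw [mp_neg1.measure_preimage meas_cap.nullMeasurableSet]
    refine (measure_union_le _ _).trans (add_le_add ?_ ?_)
    · rw [mp_swap.measure_preimage meas_cap.nullMeasurableSet]
    · rw [mp_swap.measure_preimage (mp_neg1.measurable meas_cap).nullMeasurableSet,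
        mp_neg1.measure_preimage meas_cap.nullMeasurableSet]
  have h2 : volume cap + (volume cap + (volume cap + volume cap)) ≤ ENNReal.ofReal (44 / 175) := by
    have h3 := vol_cap
    calc volume cap + (volume cap + (volume cap + volume cap))
        ≤ ENNReal.ofReal (11 / 175) + (ENNReal.ofReal (11 / 175) + (ENNReal.ofReal (11 / 175) +
          ENNReal.ofReal (11 / 175))) := by gcongr
      _ = ENNReal.ofReal (44 / 175) := by
        rw [← ENNReal.ofReal_add (by norm_num) (by norm_num),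
          ← ENNReal.ofReal_add (by norm_num) (by norm_num),
          ← ENNReal.ofReal_add (by norm_num) (by norm_num)]
        norm_num
  rw [vol_B0] at h1
  rw [ENNReal.ofReal_sub _ (by norm_num)]
  exact tsub_le_iff_right.2 (h1.trans (add_le_add le_rfl h2))

lemma vol_E1 : ENNReal.ofReal (Real.pi - 44 / 175) ≤ volume E1 := by
  have h1 : cc ⁻¹' E1 = E0 := rfl
  have h2 := mp_cc.measure_preimage open_E1.measurableSet.nullMeasurableSet
  rw [h1] at h2
  rw [← h2]
  exact vol_E0

end Pool.Agent.U798.CH
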