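import Pool.Agent.U798.CH.B

/-!
# The perimeter of the test set
-/

set_option autoImplicit false

open MeasureTheory Set Topology Filter
open scoped ENNReal Pointwise

noncomputable section

namespace Pool.Agent.U798.CH

open Pool.Agent.Results.MP_302605_an.OptimalAnisotropy

lemma emb_cc : MeasurableEmbedding cc := by
  have h3 : cc = (MeasurableEquiv.toLp 2 (Fin 2 → ℝ)) ∘ MeasurableEquiv.finTwoArrow.symm := by
    funext p
    ext i
    fin_cases i <;> rfl
  rw [h3]
  exact (MeasurableEquiv.toLp 2 (Fin 2 → ℝ)).measurableEmbedding.comp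
    MeasurableEquiv.finTwoArrow.symm.measurableEmbedding

lemma E0_sub : E0 ⊆ Icc (-1 : ℝ) 1 ×ˢ Icc (-1 : ℝ) 1 := by
  rintro ⟨x, y⟩ ⟨_, h1, h2⟩
  have h1' : |x| < 9 / 10 := h1
  have h2' : |y| < 9 / 10 := h2
  rw [abs_lt] at h1' h2'
  exact ⟨⟨by linarith, by linarith⟩, ⟨by linarith, by linarith⟩⟩

lemma int_E0 {f : ℝ × ℝ → ℝ} (hf : Continuous f) : IntegrableOn f E0 := by
  have h1 : IsCompact (Icc (-1 : ℝ) 1 ×ˢ Icc (-1 : ℝ) 1) := isCompact_Icc.prod isCompact_Icc
  exact (hf.continuousOn.integrableOn_compact h1).mono_set E0_sub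

/-- the integral of a derivative along the first coordinate -/
lemma slice {f u : ℝ × ℝ → ℝ} (hf : Continuous f)
    (hu : ∀ x y, HasDerivAt (fun t => u (t, y)) (f (x, y)) x) (hb : ∀ p, |u p| ≤ 1) :
    ∫ p in E0, f p ≤ 18 / 5 := by
  rw [← integral_indicator open_E0.measurableSet]
  have hint : Integrable (E0.indicator f) (volume : Measure (ℝ × ℝ)) :=
    (integrable_indicator_iff open_E0.measurableSet).2 (int_E0 hf)
  have e : (volume : Measure (ℝ × ℝ)) = (volume : Measure ℝ).prod volume := rfl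
  rw [e] at hint ⊢
  rw [integral_prod_symm _ hint]
  have h1 : ∀ y : ℝ, ∫ x : ℝ, E0.indicator f (x, y) ≤
      (Ioo (-(9 / 10) : ℝ) (9 / 10)).indicator (fun _ => 2) y := by
    intro y
    by_cases hy : y ∈ Ioo (-(9 / 10) : ℝ) (9 / 10)
    · rw [indicator_of_mem hy]
      have hy2 : y ^ 2 < 1 := by nlinarith [hy.1, hy.2]
      set w : ℝ := min (9 / 10) (Real.sqrt (1 - y ^ 2)) with hw
      have hw0 : 0 ≤ w := le_min (by norm_num) (Real.sqrt_nonneg _)
      have h2 : (fun x : ℝ => E0.indicator f (x, y)) = (Ioo (-w) w).indicator fun x => f (x, y) := by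
        funext x
        have h3 : (x, y) ∈ E0 ↔ x ∈ Ioo (-w) w := by
          rw [mem_Ioo, ← abs_lt, hw, lt_min_iff]
          have h4 : |x| < Real.sqrt (1 - y ^ 2) ↔ x ^ 2 + y ^ 2 < 1 := by
            rw [← Real.sqrt_sq_eq_abs, Real.sqrt_lt_sqrt_iff (sq_nonneg x)]
            constructor <;> intro h <;> linarith
          rw [h4]
          constructor
          · rintro ⟨a, b, c⟩
            exact ⟨b, a⟩
          · rintro ⟨a, b⟩
            exact ⟨b, a, abs_lt.2 hy⟩
        by_cases h5 : x ∈ Ioo (-w) w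
        · rw [indicator_of_mem h5, indicator_of_mem (h3.2 h5)]
        · rw [indicator_of_notMem h5, indicator_of_notMem fun h => h5 (h3.1 h)]
      rw [h2, integral_indicator measurableSet_Ioo, ← integral_Ioc_eq_integral_Ioo,
        ← intervalIntegral.integral_of_le (by linarith)]
      rw [intervalIntegral.integral_eq_sub_of_hasDerivAt (f := fun t => u (t, y))
        (fun x _ => hu x y) (Continuous.intervalIntegrable (by fun_prop) _ _)]
      have h6 := (abs_le.1 (hb (w, y))).2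
      have h7 := (abs_le.1 (hb (-w, y))).1
      linarith
    · rw [indicator_of_notMem hy]
      have h2 : (fun x : ℝ => E0.indicator f (x, y)) = fun _ => 0 := by
        funext x
        rw [indicator_of_notMem]
        intro h
        exact hy (abs_lt.1 h.2.2)
      rw [h2]
      simp
  have h3 := integral_mono hint.integral_prod_right
    ((integrable_indicator_iff measurableSet_Ioo).2 (integrableOn_const (by simp) (by simp))) h1
  refine h3.trans ?_
  rw [integral_indicator measurableSet_Ioo, setIntegral_const, measureReal_def, Real.volume_Ioo,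
    ENNReal.toReal_ofReal (by norm_num)]
  norm_num

lemma slice' {f u : ℝ × ℝ → ℝ} (hf : Continuous f)
    (hu : ∀ x y, HasDerivAt (fun t => u (x, t)) (f (x, y)) y) (hb : ∀ p, |u p| ≤ 1) :
    ∫ p in E0, f p ≤ 18 / 5 := by
  have h1 : Prod.swap ⁻¹' E0 = E0 := by
    ext ⟨x, y⟩
    show (y ^ 2 + x ^ 2 < 1 ∧ |y| < 9 / 10 ∧ |x| < 9 / 10) ↔
      (x ^ 2 + y ^ 2 < 1 ∧ |x| < 9 / 10 ∧ |y| < 9 / 10)
    rw [add_comm (y ^ 2)]
    tauto
  have h2 := mp_swap.setIntegral_preimage_emb (MeasurableEquiv.prodComm.measurableEmbedding) f E0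
  rw [h1] at h2
  rw [← h2]
  exact slice (f := fun p => f p.swap) (u := fun p => u p.swap) (by fun_prop)
    (fun x y => hu y x) fun p => hb _

lemma cc_eq (p : ℝ × ℝ) :
    cc p = p.1 • EuclideanSpace.single (0 : Fin 2) (1 : ℝ) + p.2 • EuclideanSpace.single 1 1 := by
  ext i
  fin_cases i <;> simp [cc]

lemma hasDeriv0 {φ : En 2 → En 2} (hφ : ContDiff ℝ 1 φ) (x y : ℝ) :
    HasDerivAt (fun t => (φ (cc (t, y))) 0)
      ((fderiv ℝ φ (cc (x, y)) (EuclideanSpace.single 0 1)) 0) x := by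
  have h1 : HasFDerivAt φ (fderiv ℝ φ (cc (x, y))) (cc (x, y)) :=
    (hφ.differentiable (by norm_num)).differentiableAt.hasFDerivAt
  have h2 : HasDerivAt (fun t : ℝ => cc (t, y)) (EuclideanSpace.single 0 1) x := by
    have e : (fun t : ℝ => cc (t, y)) = fun t : ℝ => t • EuclideanSpace.single (0 : Fin 2) (1 : ℝ) +
        y • EuclideanSpace.single 1 1 := funext fun t => cc_eq (t, y)
    rw [e]
    simpa using ((hasDerivAt_id x).smul_const (EuclideanSpace.single (0 : Fin 2) (1 : ℝ))).add_const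
      (y • EuclideanSpace.single (1 : Fin 2) (1 : ℝ))
  have h3 := h1.comp_hasDerivAt x h2
  exact ((EuclideanSpace.proj (0 : Fin 2) : En 2 →L[ℝ] ℝ).hasFDerivAt).comp_hasDerivAt x h3

lemma hasDeriv1 {φ : En 2 → En 2} (hφ : ContDiff ℝ 1 φ) (x y : ℝ) :
    HasDerivAt (fun t => (φ (cc (x, t))) 1)
      ((fderiv ℝ φ (cc (x, y)) (EuclideanSpace.single 1 1)) 1) y := by
  have h1 : HasFDerivAt φ (fderiv ℝ φ (cc (x, y))) (cc (x, y)) :=
    (hφ.differentiable (by norm_num)).differentiableAt.hasFDerivAt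
  have h2 : HasDerivAt (fun t : ℝ => cc (x, t)) (EuclideanSpace.single 1 1) y := by
    have e : (fun t : ℝ => cc (x, t)) = fun t : ℝ => x • EuclideanSpace.single (0 : Fin 2) (1 : ℝ) +
        t • EuclideanSpace.single 1 1 := funext fun t => cc_eq (x, t)
    rw [e]
    simpa using ((hasDerivAt_id y).smul_const (EuclideanSpace.single (1 : Fin 2) (1 : ℝ))).const_add
      (x • EuclideanSpace.single (0 : Fin 2) (1 : ℝ))
  have h3 := h1.comp_hasDerivAt y h2
  exact ((EuclideanSpace.proj (1 : Fin 2) : En 2 →L[ℝ] ℝ).hasFDerivAt).comp_hasDerivAt y h3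

/-- the perimeter of the test set -/
lemma per_E1 : perimeter Sq E1 ≤ ENNReal.ofReal (36 / 5) := by
  refine iSup_le fun φ => iSup_le fun h1 => iSup_le fun h2 => iSup_le fun h3 => ?_
  apply ENNReal.ofReal_le_ofReal
  have h4 := mp_cc.setIntegral_preimage_emb emb_cc (fun x => div φ x) E1
  have h5 : cc ⁻¹' E1 = E0 := rfl
  rw [h5] at h4
  rw [← h4]
  have hc : Continuous fun x => fderiv ℝ φ x := h1.continuous_fderiv (by norm_num)
  set f : ℝ × ℝ → ℝ := fun p => (fderiv ℝ φ (cc p) (EuclideanSpace.single 0 1)) 0 with hf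
  set g : ℝ × ℝ → ℝ := fun p => (fderiv ℝ φ (cc p) (EuclideanSpace.single 1 1)) 1 with hg
  have hfc : Continuous f := by
    have : Continuous fun p => fderiv ℝ φ (cc p) (EuclideanSpace.single 0 1) :=
      (hc.comp cont_cc).clm_apply continuous_const
    exact (EuclideanSpace.proj (0 : Fin 2) : En 2 →L[ℝ] ℝ).continuous.comp this
  have hgc : Continuous g := by
    have : Continuous fun p => fderiv ℝ φ (cc p) (EuclideanSpace.single 1 1) :=
      (hc.comp cont_cc).clm_apply continuous_const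
    exact (EuclideanSpace.proj (1 : Fin 2) : En 2 →L[ℝ] ℝ).continuous.comp this
  have e : ∀ p, div φ (cc p) = f p + g p := by
    intro p
    rw [div, Fin.sum_univ_two]
  simp_rw [e]
  rw [integral_add (int_E0 hfc) (int_E0 hgc)]
  have a1 := slice (f := f) (u := fun p => (φ (cc p)) 0) hfc (fun x y => hasDeriv0 h1 x y)
    fun p => (h3 _).1.le
  have a2 := slice' (f := g) (u := fun p => (φ (cc p)) 1) hgc (fun x y => hasDeriv1 h1 x y)
    fun p => (h3 _).2.le
  linarith

lemma polar_Sq {x : En 2} (hx : x ∈ polar Sq) : |x 0| + |x 1| ≤ 1 := by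
  by_contra h
  push Not at h
  obtain ⟨c, hc1, hc2⟩ : ∃ c : ℝ, (|x 0| + |x 1|)⁻¹ ≤ c ∧ c < 1 := ⟨_, le_rfl, inv_lt_one_of_one_lt₀ h⟩
  have hc0 : 0 < c := lt_of_lt_of_le (by positivity) hc1
  have hs : ∀ t : ℝ, |c * SignType.sign t| < 1 := by
    intro t
    rw [abs_mul, abs_of_pos hc0]
    rcases lt_trichotomy t 0 with h | h | h <;> simp [h, hc2]
  have h1 := hx (cc (c * SignType.sign (x 0), c * SignType.sign (x 1))) ⟨hs _, hs _⟩
  have h2 : inner ℝ x (cc (c * SignType.sign (x 0), c * SignType.sign (x 1))) =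
      c * (|x 0| + |x 1|) := by
    rw [PiLp.inner_apply, Fin.sum_univ_two, cc0, cc1]
    simp only [RCLike.inner_apply, conj_trivial]
    rw [mul_add, ← sign_mul_self (x 0), ← sign_mul_self (x 1)]
    ring
  rw [h2] at h1
  have h3 : 1 ≤ c * (|x 0| + |x 1|) := by
    rw [← div_le_iff₀ (by linarith), one_div]
    exact hc1
  linarith

/-- the area of the polar set of the square -/
lemma vol_polar_Sq : volume (polar Sq) ≤ 2 := by
  have h1 : volume {x : Fin 2 → ℝ | (∑ i, |x i| ^ (1 : ℝ)) ^ (1 / (1 : ℝ)) ≤ 1} = 2 := by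
    rw [MeasureTheory.volume_sum_rpow_le (Fin 2) (p := 1) le_rfl 1]
    have e1 : Real.Gamma (1 / 1 + 1) = 1 := by
      rw [show (1 / 1 + 1 : ℝ) = 2 by norm_num, Real.Gamma_two]
    have e2 : Real.Gamma ((Fintype.card (Fin 2) : ℝ) / 1 + 1) = 2 := by
      rw [Fintype.card_fin, show (((2 : ℕ) : ℝ) / 1 + 1 : ℝ) = (2 : ℕ) + 1 by norm_num,
        Real.Gamma_nat_eq_factorial]
      norm_num
    rw [e1, e2, Fintype.card_fin]
    norm_num
  refine le_trans ?_ h1.le
  have h3 : MeasurableSet {x : Fin 2 → ℝ | (∑ i, |x i| ^ (1 : ℝ)) ^ (1 / (1 : ℝ)) ≤ 1} := by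
    measurability
  have h4 := (EuclideanSpace.volume_preserving_symm_measurableEquiv_toLp (Fin 2)).measure_preimage
    h3.nullMeasurableSet
  rw [← h4]
  apply measure_mono
  intro x hx
  show (∑ i, |x i| ^ (1 : ℝ)) ^ (1 / (1 : ℝ)) ≤ 1
  simp only [Real.rpow_one, Fin.sum_univ_two, div_one]
  exact polar_Sq hx

/-- the value of the square -/
lemma J_Sq : J B Sq ≤ ENNReal.ofReal (36 / 5 / (Real.pi - 44 / 175) * Real.sqrt 2) := by
  have hp := Real.pi_gt_three
  have hA : 0 < Real.pi - 44 / 175 := by linarith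
  unfold J
  rw [ENNReal.ofReal_mul (by positivity)]
  refine mul_le_mul' ?_ ?_
  · have h1 : cheeger Sq B ≤ perimeter Sq E1 / volume E1 :=
      iInf_le_of_le E1 (iInf_le_of_le open_E1.measurableSet (iInf_le_of_le E1_sub
        (iInf_le_of_le (lt_of_lt_of_le (ENNReal.ofReal_pos.2 hA) vol_E1) le_rfl)))
    refine h1.trans ?_
    rw [ENNReal.ofReal_div_of_pos hA]
    exact ENNReal.div_le_div per_E1 vol_E1
  · refine (ENNReal.rpow_le_rpow vol_polar_Sq (by positivity)).trans ?_
    rw [Real.sqrt_eq_rpow, ← ENNReal.ofReal_rpow_of_nonneg (by norm_num) (by norm_num)]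
    norm_num

/-- the comparison with the regular polygons -/
lemma compare {n : ℕ} (hn : 30 ≤ n) :
    36 / 5 / (Real.pi - 44 / 175) * Real.sqrt 2 <
      2 * (Real.sqrt Real.pi * Real.cos (Real.pi / n)) := by
  have hp1 := Real.pi_gt_d4
  have hp2 := Real.pi_lt_d4
  have hn0 : (30 : ℝ) ≤ n := by exact_mod_cast hn
  have hA : 0 < Real.pi - 44 / 175 := by linarith
  have h1 : (0.9945 : ℝ) ≤ Real.cos (Real.pi / n) := by
    have h2 := Real.one_sub_sq_div_two_le_cos (x := Real.pi / n)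
    have h3 : Real.pi / n ≤ 0.10472 := by
      rw [div_le_iff₀ (by linarith)]
      nlinarith
    have h4 : 0 ≤ Real.pi / n := by positivity
    nlinarith
  have h5 : 36 / 5 / (Real.pi - 44 / 175) * Real.sqrt 2 < 2 * (Real.sqrt Real.pi * 0.9945) := by
    rw [div_mul_eq_mul_div, div_lt_iff₀ hA]
    have h6 : Real.sqrt 2 < 1.41422 := by
      rw [Real.sqrt_lt' (by norm_num)]
      norm_num
    have h7 : 1.77242 < Real.sqrt Real.pi := by
      rw [Real.lt_sqrt (by norm_num)]
      norm_num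
      linarith
    have h8 : 36 / 5 * Real.sqrt 2 < 10.18239 := by linarith
    have h9 : (10.1884 : ℝ) < 2 * (1.77242 * 0.9945) * (3.1415 - 44 / 175) := by norm_num
    have h10 : 2 * (1.77242 * 0.9945) * (3.1415 - 44 / 175) ≤
        2 * (Real.sqrt Real.pi * 0.9945) * (Real.pi - 44 / 175) := by
      gcongr
    linarith
  refine h5.trans_le ?_
  gcongr

end Pool.Agent.U798.CH
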