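import Pool.Agent.U798.CH.C

/-!
# Polygons near the square
-/

set_option autoImplicit false

open MeasureTheory Set Topology Filter
open scoped ENNReal Pointwise

noncomputable section

namespace Pool.Agent.U798.CH

open Pool.Agent.Results.MP_302605_an.OptimalAnisotropy

/-- the heights of the vertices -/
def yy (k j : ℕ) : ℝ := 2 * j / (k - 1) - 1

/-- the vertices on the right side -/
def rr (ε : ℝ) (k j : ℕ) : En 2 := cc (1 + ε * (1 - yy k j ^ 2), yy k j)

/-- the vertices -/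
def VV (ε : ℝ) (k : ℕ) : Finset (En 2) :=
  (Finset.range k).image (rr ε k) ∪ (Finset.range k).image fun j => -rr ε k j

/-- the polygon -/
def PP (ε : ℝ) (k : ℕ) : Set (En 2) := interior (convexHull ℝ (VV ε k : Set (En 2)))

variable {ε : ℝ} {k : ℕ}

lemma yy_le (hk : 2 ≤ k) {j : ℕ} (hj : j < k) : |yy k j| ≤ 1 := by
  have h1 : (1 : ℝ) < k := by exact_mod_cast hk
  have h2 : (j : ℝ) ≤ k - 1 := by
    have : j + 1 ≤ k := hj
    have : ((j + 1 : ℕ) : ℝ) ≤ k := by exact_mod_cast this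
    push_cast at this
    linarith
  have h3 : (0 : ℝ) ≤ j := Nat.cast_nonneg _
  have h4 : 0 < (k : ℝ) - 1 := by linarith
  unfold yy
  rw [abs_le]
  constructor
  · have : 0 ≤ 2 * (j : ℝ) / (k - 1) := by positivity
    linarith
  · have : 2 * (j : ℝ) / (k - 1) ≤ 2 := by
      rw [div_le_iff₀ h4]
      linarith
    linarith

lemma yy_inj (hk : 2 ≤ k) {i j : ℕ} (h : yy k i = yy k j) : i = j := by
  have h1 : (1 : ℝ) < k := by exact_mod_cast hk
  have h4 : (k : ℝ) - 1 ≠ 0 := by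
    intro h
    linarith
  unfold yy at h
  have h5 : 2 * (i : ℝ) / (k - 1) = 2 * j / (k - 1) := by linarith
  rw [div_left_inj' h4] at h5
  have h6 : (i : ℝ) = j := by linarith
  exact_mod_cast h6

lemma rr0 (j : ℕ) : rr ε k j 0 = 1 + ε * (1 - yy k j ^ 2) := rfl
lemma rr1 (j : ℕ) : rr ε k j 1 = yy k j := rfl

lemma rr0_ge (hε : 0 < ε) (hk : 2 ≤ k) {j : ℕ} (hj : j < k) : 1 ≤ rr ε k j 0 := by
  rw [rr0]
  have h1 := yy_le hk hj
  rw [← sq_le_one_iff_abs_le_one] at h1
  nlinarith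

lemma rr0_le (hε : 0 < ε) (j : ℕ) : rr ε k j 0 ≤ 1 + ε := by
  rw [rr0]
  nlinarith [sq_nonneg (yy k j)]

lemma card_VV (hε : 0 < ε) (hk : 2 ≤ k) : (VV ε k).card = 2 * k := by
  have h1 : ∀ i j, rr ε k i = rr ε k j → i = j := by
    intro i j h
    have h2 : rr ε k i 1 = rr ε k j 1 := by rw [h]
    exact yy_inj hk h2
  unfold VV
  rw [Finset.card_union_of_disjoint, Finset.card_image_of_injective _ fun i j => h1 i j,
    Finset.card_image_of_injective _ fun i j h => h1 i j (neg_injective h), Finset.card_range]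
  · ring
  · rw [Finset.disjoint_left]
    intro v hv hv'
    rw [Finset.mem_image] at hv hv'
    obtain ⟨i, hi, rfl⟩ := hv
    obtain ⟨j, hj, h2⟩ := hv'
    have h3 := rr0_ge hε hk (Finset.mem_range.1 hi)
    have h4 := rr0_ge hε hk (Finset.mem_range.1 hj)
    have h5 : (-rr ε k j) 0 = rr ε k i 0 := by rw [h2]
    rw [PiLp.neg_apply] at h5
    linarith

lemma mem_VV {v : En 2} : v ∈ VV ε k ↔ (∃ j < k, rr ε k j = v) ∨ ∃ j < k, -rr ε k j = v := by
  unfold VV
  simp [Finset.mem_union, Finset.mem_image]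

/-- the linear function which is largest at the vertex `j` -/
def ll (ε : ℝ) (k j : ℕ) (x : En 2) : ℝ := x 0 + 2 * ε * yy k j * x 1

lemma ll_lt (hε : 0 < ε) (hε1 : ε < 1) (hk : 2 ≤ k) {j : ℕ} (hj : j < k) {v : En 2}
    (hv : v ∈ VV ε k) (hne : v ≠ rr ε k j) : ll ε k j v < ll ε k j (rr ε k j) := by
  rw [mem_VV] at hv
  have hyj := yy_le hk hj
  rw [← sq_le_one_iff_abs_le_one] at hyj
  rcases hv with ⟨i, hi, rfl⟩ | ⟨i, hi, rfl⟩
  · have h1 : i ≠ j := fun h => hne (by rw [h])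
    have h2 : yy k i - yy k j ≠ 0 := fun h => h1 (yy_inj hk (by linarith))
    have h3 : 0 < (yy k i - yy k j) ^ 2 := by positivity
    unfold ll
    rw [rr0, rr1, rr0, rr1]
    nlinarith
  · have hyi := yy_le hk hi
    rw [← sq_le_one_iff_abs_le_one] at hyi
    unfold ll
    rw [PiLp.neg_apply, PiLp.neg_apply, rr0, rr1, rr0, rr1]
    have h4 : (yy k i - yy k j) ^ 2 ≤ 4 := by
      nlinarith [sq_nonneg (yy k i + yy k j)]
    nlinarith [sq_nonneg (yy k j)]

lemma ll_convex (ε : ℝ) (k j : ℕ) (c : ℝ) : Convex ℝ {x | ll ε k j x < c} := by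
  have h : IsLinearMap ℝ (ll ε k j) := by
    constructor
    · intro x y
      unfold ll
      rw [PiLp.add_apply, PiLp.add_apply]
      ring
    · intro a x
      unfold ll
      rw [PiLp.smul_apply, PiLp.smul_apply, smul_eq_mul, smul_eq_mul]
      simp only [smul_eq_mul]
      ring
  exact convex_halfSpace_lt h c

lemma neg_mem_VV {v : En 2} (hv : v ∈ VV ε k) : -v ∈ VV ε k := by
  rw [mem_VV] at hv ⊢
  rcases hv with ⟨i, hi, rfl⟩ | ⟨i, hi, rfl⟩
  · exact Or.inr ⟨i, hi, rfl⟩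
  · exact Or.inl ⟨i, hi, (neg_neg _).symm⟩

lemma neg_VV : -(VV ε k : Set (En 2)) = VV ε k := by
  ext v
  rw [Set.mem_neg, Finset.mem_coe, Finset.mem_coe]
  exact ⟨fun h => by simpa using neg_mem_VV h, neg_mem_VV⟩

lemma vertex (hε : 0 < ε) (hε1 : ε < 1) (hk : 2 ≤ k) : ∀ v ∈ VV ε k,
    v ∉ convexHull ℝ ((VV ε k : Set (En 2)) \ {v}) := by
  intro v hv
  have key : ∀ j < k, rr ε k j ∉ convexHull ℝ ((VV ε k : Set (En 2)) \ {rr ε k j}) := by
    intro j hj h
    have h1 : convexHull ℝ ((VV ε k : Set (En 2)) \ {rr ε k j}) ⊆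
        {x | ll ε k j x < ll ε k j (rr ε k j)} := by
      apply convexHull_min _ (ll_convex ε k j _)
      intro w hw
      exact ll_lt hε hε1 hk hj hw.1 hw.2
    have h2 : ll ε k j (rr ε k j) < ll ε k j (rr ε k j) := h1 h
    exact lt_irrefl _ h2
  rcases mem_VV.1 hv with ⟨j, hj, rfl⟩ | ⟨j, hj, rfl⟩
  · exact key j hj
  · intro h
    apply key j hj
    have h2 : (VV ε k : Set (En 2)) \ {rr ε k j} = -((VV ε k : Set (En 2)) \ {-rr ε k j}) := by
      ext w
      rw [Set.mem_neg, Set.mem_sdiff, Set.mem_sdiff, Set.mem_singleton_iff, Set.mem_singleton_iff,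
        neg_inj, ← Set.mem_neg, neg_VV]
    rw [h2, convexHull_neg]
    exact Set.mem_neg.2 h

lemma hull_box (hε : 0 < ε) (hk : 2 ≤ k) :
    convexHull ℝ (VV ε k : Set (En 2)) ⊆ {x | |x 0| ≤ 1 + ε ∧ |x 1| ≤ 1} := by
  have hc : Convex ℝ {x : En 2 | |x 0| ≤ 1 + ε ∧ |x 1| ≤ 1} := by
    intro x hx y hy a b ha hb hab
    have e0 : (a • x + b • y) 0 = a * x 0 + b * y 0 := rfl
    have e1 : (a • x + b • y) 1 = a * x 1 + b * y 1 := rfl
    refine ⟨?_, ?_⟩
    · rw [e0]
      have h1 := abs_le.1 hx.1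
      have h2 := abs_le.1 hy.1
      rw [abs_le]
      constructor <;> nlinarith
    · rw [e1]
      have h1 := abs_le.1 hx.2
      have h2 := abs_le.1 hy.2
      rw [abs_le]
      constructor <;> nlinarith
  apply convexHull_min _ hc
  have key : ∀ j < k, |rr ε k j 0| ≤ 1 + ε ∧ |rr ε k j 1| ≤ 1 := by
    intro j hj
    refine ⟨?_, yy_le hk hj⟩
    rw [abs_of_nonneg (by linarith [rr0_ge hε hk hj])]
    exact rr0_le hε j
  intro v hv
  rcases mem_VV.1 hv with ⟨j, hj, rfl⟩ | ⟨j, hj, rfl⟩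
  · exact key j hj
  · refine ⟨?_, ?_⟩
    · rw [PiLp.neg_apply, abs_neg]
      exact (key j hj).1
    · rw [PiLp.neg_apply, abs_neg]
      exact (key j hj).2

lemma corner (ε : ℝ) (hk : 2 ≤ k) : cc (1, 1) ∈ VV ε k ∧ cc (1, -1) ∈ VV ε k := by
  have h1 : (k : ℝ) - 1 ≠ 0 := by
    have : (1 : ℝ) < k := by exact_mod_cast hk
    intro h
    linarith
  have e1 : yy k (k - 1) = 1 := by
    unfold yy
    rw [Nat.cast_sub (by omega), Nat.cast_one]
    field_simp
    ring
  have e0 : yy k 0 = -1 := by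
    unfold yy
    simp
  constructor
  · rw [mem_VV]
    refine Or.inl ⟨k - 1, by omega, ?_⟩
    unfold rr
    rw [e1]
    norm_num
  · rw [mem_VV]
    refine Or.inl ⟨0, by omega, ?_⟩
    unfold rr
    rw [e0]
    norm_num

lemma Sq_sub_hull (ε : ℝ) (hk : 2 ≤ k) : Sq ⊆ convexHull ℝ (VV ε k : Set (En 2)) := by
  intro x hx
  obtain ⟨hx0, hx1⟩ := hx
  rw [abs_lt] at hx0 hx1
  have hc := convex_convexHull ℝ (VV ε k : Set (En 2))
  have h1 := subset_convexHull ℝ (VV ε k : Set (En 2)) (corner ε hk).1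
  have h2 := subset_convexHull ℝ (VV ε k : Set (En 2)) (corner ε hk).2
  have h3 := subset_convexHull ℝ (VV ε k : Set (En 2)) (neg_mem_VV (corner ε hk).1)
  have h4 := subset_convexHull ℝ (VV ε k : Set (En 2)) (neg_mem_VV (corner ε hk).2)
  have g1 := hc h1 h2 (a := (1 + x 1) / 2) (b := (1 - x 1) / 2) (by linarith) (by linarith) (by ring)
  have g2 := hc h4 h3 (a := (1 + x 1) / 2) (b := (1 - x 1) / 2) (by linarith) (by linarith) (by ring)
  have g3 := hc g1 g2 (a := (1 + x 0) / 2) (b := (1 - x 0) / 2) (by linarith) (by linarith) (by ring)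
  convert g3 using 1
  ext i
  fin_cases i
  · show x 0 = (1 + x 0) / 2 * ((1 + x 1) / 2 * 1 + (1 - x 1) / 2 * 1) +
      (1 - x 0) / 2 * ((1 + x 1) / 2 * (-1) + (1 - x 1) / 2 * (-1))
    ring
  · show x 1 = (1 + x 0) / 2 * ((1 + x 1) / 2 * 1 + (1 - x 1) / 2 * (-1)) +
      (1 - x 0) / 2 * ((1 + x 1) / 2 * (-(-1)) + (1 - x 1) / 2 * (-1))
    ring

lemma open_Sq : IsOpen Sq :=
  (isOpen_lt (by fun_prop) (by fun_prop)).and (isOpen_lt (by fun_prop) (by fun_prop))

lemma Sq_sub (ε : ℝ) (hk : 2 ≤ k) : Sq ⊆ PP ε k :=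
  interior_maximal (Sq_sub_hull ε hk) open_Sq

lemma PP_sub (hε : 0 < ε) (hk : 2 ≤ k) : PP ε k ⊆ (1 + 2 * ε) • Sq := by
  intro x hx
  have h1 := hull_box hε hk (interior_subset hx)
  have h0 : (0 : ℝ) < 1 + 2 * ε := by linarith
  rw [Set.mem_smul_set_iff_inv_smul_mem₀ h0.ne']
  constructor
  · show |(1 + 2 * ε)⁻¹ * x 0| < 1
    rw [abs_mul, abs_inv, abs_of_pos h0, inv_mul_lt_iff₀ h0]
    linarith [h1.1]
  · show |(1 + 2 * ε)⁻¹ * x 1| < 1
    rw [abs_mul, abs_inv, abs_of_pos h0, inv_mul_lt_iff₀ h0]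
    linarith [h1.2]

lemma poly_PP (hε : 0 < ε) (hε1 : ε < 1) (hk : 2 ≤ k) : Poly (2 * k) (PP ε k) where
  anis := {
    nonempty := ⟨0, Sq_sub ε hk (by
      constructor <;> simp)⟩
    isOpen := isOpen_interior
    bounded := (isBounded_convexHull.2 (Finset.finite_toSet (VV ε k)).isBounded).subset
      interior_subset
    convex := (convex_convexHull ℝ _).interior
    symm := by
      intro x hx
      have h1 : PP ε k = -PP ε k := by
        unfold PP
        rw [← Set.image_neg_eq_neg]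
        have := (Homeomorph.neg (En 2)).image_interior (convexHull ℝ (VV ε k : Set (En 2)))
        have e : ⇑(Homeomorph.neg (En 2)) = Neg.neg := rfl
        rw [e] at this
        rw [this, Set.image_neg_eq_neg, ← convexHull_neg, neg_VV]
      rw [h1] at hx
      exact Set.mem_neg.1 hx }
  vert := ⟨VV ε k, card_VV hε hk, rfl, vertex hε hε1 hk⟩

/-- polygons with exactly `2 k` vertices near the square -/
theorem near_square {k : ℕ} (hk : 2 ≤ k) {η : ℝ} (hη : 0 < η) :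
    ∃ P, Poly (2 * k) P ∧ J B P ≤ ENNReal.ofReal (1 + η) * J B Sq := by
  obtain ⟨ε, hε⟩ : ∃ ε : ℝ, ε = min (η / 2) (1 / 2) := ⟨_, rfl⟩
  have h0 : 0 < ε := by rw [hε]; positivity
  have h1 : ε < 1 := by
    have := min_le_right (η / 2) (1 / 2)
    rw [← hε] at this
    linarith
  have h2 : 2 * ε ≤ η := by
    have := min_le_left (η / 2) (1 / 2)
    rw [← hε] at this
    linarith
  refine ⟨PP ε k, poly_PP h0 h1 hk, ?_⟩
  have h3 := J_le (N := 2) two_ne_zero (Ω := B) (a := 1 + 2 * ε) (b := 1) (by linarith) one_pos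
    (PP_sub h0 hk) (by rw [one_smul]; exact Sq_sub ε hk)
  refine h3.trans ?_
  rw [mul_one]
  gcongr

/-- `Reg 4` is the square -/
lemma Reg_four : Reg 4 = Sq := by
  ext x
  constructor
  · intro h
    have h0 := h 0
    have h1 := h 1
    have h2 := h 2
    have h3 := h 3
    have e1 : 2 * Real.pi * ((1 : ℤ) : ℝ) / ((4 : ℕ) : ℝ) = Real.pi / 2 := by push_cast; ring
    have e2 : 2 * Real.pi * ((2 : ℤ) : ℝ) / ((4 : ℕ) : ℝ) = Real.pi := by push_cast; ring
    have e3 : 2 * Real.pi * ((3 : ℤ) : ℝ) / ((4 : ℕ) : ℝ) = Real.pi / 2 + Real.pi := by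
      push_cast; ring
    have e0 : 2 * Real.pi * ((0 : ℤ) : ℝ) / ((4 : ℕ) : ℝ) = 0 := by simp
    rw [e0, Real.cos_zero, Real.sin_zero] at h0
    rw [e1, Real.cos_pi_div_two, Real.sin_pi_div_two] at h1
    rw [e2, Real.cos_pi, Real.sin_pi] at h2
    rw [e3, Real.cos_add_pi, Real.sin_add_pi, Real.cos_pi_div_two, Real.sin_pi_div_two] at h3
    constructor
    · rw [abs_lt]
      constructor <;> linarith
    · rw [abs_lt]
      constructor <;> linarith
  · intro h k
    obtain ⟨h0, h1⟩ := h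
    rw [abs_lt] at h0 h1
    have hcs : (Real.cos (2 * Real.pi * k / (4 : ℕ)) = 0 ∧
        |Real.sin (2 * Real.pi * k / (4 : ℕ))| = 1) ∨
        (|Real.cos (2 * Real.pi * k / (4 : ℕ))| = 1 ∧
        Real.sin (2 * Real.pi * k / (4 : ℕ)) = 0) := by
      rcases Int.even_or_odd' k with ⟨m, hm | hm⟩
      · right
        have e : 2 * Real.pi * k / ((4 : ℕ) : ℝ) = m * Real.pi := by
          rw [hm]; push_cast; ring
        rw [e]
        refine ⟨?_, Real.sin_int_mul_pi m⟩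
        rw [Real.abs_cos_int_mul_pi]
      · left
        have e : 2 * Real.pi * k / ((4 : ℕ) : ℝ) = m * Real.pi + Real.pi / 2 := by
          rw [hm]; push_cast; ring
        rw [e, Real.cos_add_pi_div_two, Real.sin_add_pi_div_two, Real.sin_int_mul_pi,
          Real.abs_cos_int_mul_pi]
        simp
    rcases hcs with ⟨a, b⟩ | ⟨a, b⟩
    · rw [a]
      rcases eq_or_eq_neg_of_abs_eq b with c | c <;> rw [c] <;> linarith
    · rw [b]
      rcases eq_or_eq_neg_of_abs_eq a with c | c <;> rw [c] <;> linarith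

/-- the final comparison -/
theorem beats {n : ℕ} (hn : Even n) (hn30 : 30 ≤ n) : ∃ P, Poly n P ∧ J B P < J B (Reg n) := by
  obtain ⟨k, rfl⟩ := hn.two_dvd
  set a : ℝ := 36 / 5 / (Real.pi - 44 / 175) * Real.sqrt 2 with ha
  set b : ℝ := 2 * (Real.sqrt Real.pi * Real.cos (Real.pi / (2 * k : ℕ))) with hb
  have hab : a < b := compare hn30
  have ha0 : 0 < a := by
    have := Real.pi_gt_three
    have : 0 < Real.pi - 44 / 175 := by linarith
    positivity
  obtain ⟨η, hη0, hη⟩ : ∃ η : ℝ, 0 < η ∧ (1 + η) * a < b := by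
    refine ⟨(b - a) / (2 * a), div_pos (by linarith) (by linarith), ?_⟩
    have : (1 + (b - a) / (2 * a)) * a = (a + b) / 2 := by
      field_simp
      ring
    rw [this]
    linarith
  obtain ⟨P, hP, hJ⟩ := near_square (k := k) (by omega) hη0
  refine ⟨P, hP, ?_⟩
  calc J B P ≤ ENNReal.ofReal (1 + η) * J B Sq := hJ
    _ ≤ ENNReal.ofReal (1 + η) * ENNReal.ofReal a := by
        gcongr
        exact J_Sq
    _ = ENNReal.ofReal ((1 + η) * a) := (ENNReal.ofReal_mul (by linarith)).symm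
    _ < ENNReal.ofReal b := (ENNReal.ofReal_lt_ofReal_iff (lt_trans ha0 hab)).2 hη
    _ ≤ J B (Reg (2 * k)) := J_Reg_ge (by omega)

end Pool.Agent.U798.CH
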